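import Pool.Agent.Helper76.GT.St

/-! GT MODULE GRO (project GT, MP_b731ff_al): elements near the identity give superpolynomial
growth. -/

set_option autoImplicit false

namespace Pool.Agent.Helper36.GT

open Pool.Agent.Helper76.GT Filter
open scoped Pointwise

universe u

/-- the products of powers -/
def pr {H : Type u} [Group H] (g : ℕ → H) (A : ℕ) : (m : ℕ) → ℕ → (Fin m → Fin A) → H
  | 0, _, _ => 1
  | m + 1, i, a => g i ^ (a 0 : ℕ) * pr g A m (i + 1) (fun j => a j.succ)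

theorem nu_pow {H : Type u} [Group H] {ν : H → ℝ} (hν : NearId ν) (x : H) (n : ℕ) :
    ν (x ^ n) ≤ n * ν x := by
  induction n with
  | zero => simp [hν.one]
  | succ n ih =>
      rw [pow_succ]
      have := hν.mul (x ^ n) x
      push_cast
      linarith

section

variable {H : Type u} [Group H] {ν : H → ℝ} (hν : NearId ν) {g : ℕ → H} {A : ℕ} {ε : ℝ}
  (hA : 1 ≤ A) (hε : ε * (32 * A) = 1) (h0 : ∀ j, 0 < ν (g j)) (hs : ∀ j, ν (g j) < ε)
  (hstep : ∀ j, ν (g (j + 1)) ≤ 2 * ε * ν (g j))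

include hν hA hε h0 hstep in
theorem pr_le (m : ℕ) : ∀ (i : ℕ) (a : Fin m → Fin A), ν (pr g A m i a) ≤ A * ν (g i) := by
  induction m with
  | zero =>
      intro i a
      show ν 1 ≤ _
      rw [hν.one]
      have := h0 i
      positivity
  | succ m ih =>
      intro i a
      have h1 := hν.mul (g i ^ (a 0 : ℕ)) (pr g A m (i + 1) (fun j => a j.succ))
      have h2 := nu_pow hν (g i) (a 0 : ℕ)
      have h3 := ih (i + 1) (fun j => a j.succ)
      have h4 := hstep i
      have h5 : ((a 0 : ℕ) : ℝ) ≤ A - 1 := by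
        have : (a 0 : ℕ) + 1 ≤ A := (a 0).isLt
        have h6 : (((a 0 : ℕ) + 1 : ℕ) : ℝ) ≤ A := by exact_mod_cast this
        push_cast at h6
        linarith
      have h6 : ((a 0 : ℕ) : ℝ) * ν (g i) ≤ (A - 1) * ν (g i) :=
        mul_le_mul_of_nonneg_right h5 (h0 i).le
      have hA0 : (0 : ℝ) ≤ A := Nat.cast_nonneg A
      have h7 : (A : ℝ) * ν (g (i + 1)) ≤ A * (2 * ε * ν (g i)) := mul_le_mul_of_nonneg_left h4 hA0
      have h8 : (A : ℝ) * (2 * ε * ν (g i)) = (ε * (32 * A)) * ν (g i) / 16 := by ring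
      rw [hε, one_mul] at h8
      have h9 := h0 i
      show ν (g i ^ (a 0 : ℕ) * pr g A m (i + 1) (fun j => a j.succ)) ≤ _
      linarith

include hν hA hε h0 hs hstep in
theorem pr_aux (m i : ℕ) (a b : Fin m → Fin A) (n k : ℕ) (hn : n ≤ A) (hk : k < n)
    (h : g i ^ n * pr g A m (i + 1) a = g i ^ k * pr g A m (i + 1) b) : False := by
  have h1 : g i ^ (n - k) = pr g A m (i + 1) b * (pr g A m (i + 1) a)⁻¹ := by
    have h2 : g i ^ n = g i ^ k * g i ^ (n - k) := by rw [← pow_add]; congr 1; omega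
    rw [h2, mul_assoc] at h
    have h3 := mul_left_cancel h
    rw [← h3]
    group
  have hx := h0 i
  have h4 := hν.mul (pr g A m (i + 1) b) (pr g A m (i + 1) a)⁻¹
  rw [hν.inv, ← h1] at h4
  have h5 := pr_le hν hA hε h0 hstep m (i + 1) a
  have h6 := pr_le hν hA hε h0 hstep m (i + 1) b
  have hA0 : (0 : ℝ) ≤ A := Nat.cast_nonneg A
  have h7 : (A : ℝ) * ν (g (i + 1)) ≤ A * (2 * ε * ν (g i)) :=
    mul_le_mul_of_nonneg_left (hstep i) hA0
  have h8 : (A : ℝ) * (2 * ε * ν (g i)) = (ε * (32 * A)) * ν (g i) / 16 := by ring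
  rw [hε, one_mul] at h8
  have h9 := hν.pow (g i) (n - k)
  have h10 : (1 : ℝ) ≤ ((n - k : ℕ) : ℝ) := by exact_mod_cast (by omega : 1 ≤ n - k)
  have h11 : ((n - k : ℕ) : ℝ) ≤ A := by exact_mod_cast (by omega : n - k ≤ A)
  have h12 : ((n - k : ℕ) : ℝ) * ν (g i) ≤ 1 / 32 := by
    have h13 : ((n - k : ℕ) : ℝ) * ν (g i) ≤ A * ε :=
      mul_le_mul h11 (hs i).le hx.le hA0
    have h14 : (A : ℝ) * ε = (ε * (32 * A)) / 32 := by ring
    rw [hε] at h14
    linarith
  have h15 : ν (g i) ≤ ((n - k : ℕ) : ℝ) * ν (g i) := by nlinarith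
  have h16 : ((n - k : ℕ) : ℝ) ^ 2 * ν (g i) ^ 2 ≤ 1 / 32 * (((n - k : ℕ) : ℝ) * ν (g i)) := by
    have h17 : ((n - k : ℕ) : ℝ) ^ 2 * ν (g i) ^ 2 =
        (((n - k : ℕ) : ℝ) * ν (g i)) * (((n - k : ℕ) : ℝ) * ν (g i)) := by ring
    rw [h17]
    exact mul_le_mul_of_nonneg_right h12 (by positivity)
  linarith

include hν hA hε h0 hs hstep in
theorem pr_inj (m : ℕ) : ∀ (i : ℕ), Function.Injective (pr g A m i) := by
  induction m with
  | zero =>
      intro i a b _
      funext j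
      exact j.elim0
  | succ m ih =>
      intro i a b hab
      have h : g i ^ (a 0 : ℕ) * pr g A m (i + 1) (fun j => a j.succ) =
        g i ^ (b 0 : ℕ) * pr g A m (i + 1) (fun j => b j.succ) := hab
      rcases lt_trichotomy (a 0 : ℕ) (b 0 : ℕ) with hlt | heq | hgt
      · exact absurd (pr_aux hν hA hε h0 hs hstep m i _ _ _ _ (b 0).isLt.le hlt h.symm) not_false
      · rw [heq] at h
        have h1 := ih (i + 1) (mul_left_cancel h)
        funext j
        refine Fin.cases ?_ (fun j => ?_) j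
        · exact Fin.ext heq
        · exact congrFun h1 j
      · exact absurd (pr_aux hν hA hε h0 hs hstep m i _ _ _ _ (a 0).isLt.le hgt h) not_false

end

theorem pr_mem {H : Type u} [Group H] [DecidableEq H] {S : Finset H} (h1 : (1 : H) ∈ S)
    {g : ℕ → H} {A c : ℕ} (hg : ∀ j, g j ∈ S ^ (c * 2 ^ j)) (m : ℕ) :
    ∀ (i : ℕ) (a : Fin m → Fin A), ∃ N : ℕ, N + A * c * 2 ^ i ≤ A * c * 2 ^ (i + m) ∧
      pr g A m i a ∈ S ^ N := by
  induction m with
  | zero =>
      intro i a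
      refine ⟨0, by simp, ?_⟩
      show (1 : H) ∈ S ^ 0
      simp
  | succ m ih =>
      intro i a
      obtain ⟨N, hN, hm⟩ := ih (i + 1) (fun j => a j.succ)
      refine ⟨A * c * 2 ^ i + N, ?_, ?_⟩
      · have h2 : A * c * 2 ^ (i + 1) = 2 * (A * c * 2 ^ i) := by rw [pow_succ]; ring
        have h3 : i + 1 + m = i + (m + 1) := by ring
        rw [h3, h2] at hN
        omega
      · show g i ^ (a 0 : ℕ) * pr g A m (i + 1) (fun j => a j.succ) ∈ S ^ _
        rw [pow_add]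
        refine Finset.mul_mem_mul ?_ hm
        have h4 : g i ^ (a 0 : ℕ) ∈ (S ^ (c * 2 ^ i)) ^ (a 0 : ℕ) := Finset.pow_mem_pow (hg i)
        rw [← pow_mul] at h4
        refine Finset.pow_subset_pow_right h1 ?_ h4
        have h5 : (a 0 : ℕ) ≤ A := (a 0).isLt.le
        calc c * 2 ^ i * (a 0 : ℕ) ≤ c * 2 ^ i * A := Nat.mul_le_mul_left _ h5
          _ = A * c * 2 ^ i := by ring

theorem pGRO (H : Type u) [Group H] [DecidableEq H] (h1 : SEQ H) : GRO H := by
  intro S hS hI hFF hFC ν hν hker C d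
  set A : ℕ := 2 ^ (d + 1) with hAdef
  have hA : 1 ≤ A := Nat.one_le_two_pow
  have hAr : (0 : ℝ) < A := by exact_mod_cast hA
  obtain ⟨c0, g, hg0, hg⟩ := h1 S hS hI hFF hFC ν hν (1 / (32 * A)) (by positivity)
  set ε : ℝ := 1 / (32 * A) with hεdef
  have hε : ε * (32 * A) = 1 := by
    rw [hεdef]
    field_simp
  have hε0 : 0 < ε := by positivity
  have hε1 : 2 * ε ≤ 1 := by
    have h2 : (1 : ℝ) ≤ A := by exact_mod_cast hA
    nlinarith
  have hpos : ∀ j, 0 < ν (g j) := by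
    intro j
    rcases (hν.nonneg (g j)).lt_or_eq with h | h
    · exact h
    · exact absurd (hker _ h.symm) (hg j).1
  have hstep : ∀ j, ν (g (j + 1)) ≤ 2 * ε * ν (g j) := fun j => (hg j).2.1
  have hs : ∀ j, ν (g j) < ε := by
    intro j
    induction j with
    | zero => exact hg0
    | succ j ih =>
        have h2 := hstep j
        have h3 := hpos j
        have h4 : 2 * ε * ν (g j) ≤ 1 * ν (g j) := mul_le_mul_of_nonneg_right hε1 h3.le
        linarith
  set c : ℕ := c0 + 1 with hcdef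
  have hgm : ∀ j, g j ∈ S ^ (c * 2 ^ j) := fun j =>
    Finset.pow_subset_pow_right hS.one (Nat.mul_le_mul_right _ (Nat.le_succ c0)) (hg j).2.2
  have hcard : ∀ m : ℕ, A ^ m ≤ (S ^ (A * c * 2 ^ m)).card := by
    intro m
    have h2 : Fintype.card (Fin m → Fin A) = A ^ m := by simp
    rw [← h2, ← Finset.card_univ,
      ← Finset.card_image_of_injective Finset.univ (pr_inj hν hA hε hpos hs hstep m 0)]
    apply Finset.card_le_card
    intro x hx
    obtain ⟨a, -, rfl⟩ := Finset.mem_image.1 hx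
    obtain ⟨N, hN, hm⟩ := pr_mem (A := A) hS.one hgm m 0 a
    refine Finset.pow_subset_pow_right hS.one ?_ hm
    rw [zero_add] at hN
    omega
  set B : ℕ := A * c with hBdef
  have hB : 1 ≤ B := Nat.mul_pos hA (Nat.succ_pos c0)
  filter_upwards [eventually_ge_atTop (B + C * (2 * B) ^ (d + 1) + 1)] with n hn
  have hnB : B ≤ n := by omega
  have hq : n / B ≠ 0 := (Nat.div_pos hnB hB).ne'
  have h2 : 2 ^ Nat.log 2 (n / B) ≤ n / B := Nat.pow_log_le_self 2 hq
  have h3 : n / B < 2 ^ (Nat.log 2 (n / B) + 1) := Nat.lt_pow_succ_log_self (by norm_num) _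
  set m := Nat.log 2 (n / B) with hm
  have h4 : B * 2 ^ m ≤ n := by
    calc B * 2 ^ m ≤ B * (n / B) := Nat.mul_le_mul_left _ h2
      _ ≤ n := Nat.mul_div_le n B
  have h5 : n < 2 * B * 2 ^ m := by
    have h6 : n < B * 2 ^ (m + 1) := by
      rw [mul_comm]
      exact (Nat.div_lt_iff_lt_mul hB).1 h3
    calc n < B * 2 ^ (m + 1) := h6
      _ = 2 * B * 2 ^ m := by rw [pow_succ]; ring
  have h6 : A ^ m ≤ (S ^ n).card :=
    (hcard m).trans (Finset.card_le_card (Finset.pow_subset_pow_right hS.one h4))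
  have h7 : A ^ m = (2 ^ m) ^ (d + 1) := by rw [hAdef, ← pow_mul, ← pow_mul, mul_comm]
  have h8 : n ^ (d + 1) ≤ (2 * B) ^ (d + 1) * (S ^ n).card := by
    calc n ^ (d + 1) ≤ (2 * B * 2 ^ m) ^ (d + 1) := Nat.pow_le_pow_left h5.le _
      _ = (2 * B) ^ (d + 1) * (2 ^ m) ^ (d + 1) := by rw [mul_pow]
      _ ≤ (2 * B) ^ (d + 1) * (S ^ n).card := by
          rw [← h7]; exact Nat.mul_le_mul_left _ h6
  by_contra hcon
  rw [not_lt] at hcon
  have hn0 : 0 < n := by omega
  have h9 : (2 * B) ^ (d + 1) * (S ^ n).card ≤ (2 * B) ^ (d + 1) * (C * n ^ d) :=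
    Nat.mul_le_mul_left _ hcon
  have h10 : (2 * B) ^ (d + 1) * (C * n ^ d) = (C * (2 * B) ^ (d + 1)) * n ^ d := by ring
  have h11 : (C * (2 * B) ^ (d + 1)) * n ^ d < n * n ^ d :=
    Nat.mul_lt_mul_of_pos_right (by omega) (pow_pos hn0 d)
  have h12 : n * n ^ d = n ^ (d + 1) := by rw [pow_succ]; ring
  omega

end Pool.Agent.Helper36.GT
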